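import Pool.Agent.H751R3.T3

/-!
# Factors of i.i.d. on the 3-regular tree which are perfect matchings
-/

set_option autoImplicit false

open MeasureTheory ProbabilityTheory Set Filter
open scoped ENNReal

noncomputable section

namespace Pool.Agent.V11331.PM

open Pool.Agent.H751R3

/-- Labels of the vertices. -/
abbrev Lab : Type := W → unitInterval

/-- The law of independent labels which are uniform on `[0, 1]`. -/
def P : Measure Lab := Measure.infinitePi fun _ : W => (volume : Measure unitInterval)

instance : IsProbabilityMeasure P := by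
  unfold P
  infer_instance

/-- `M` is a perfect matching of the 3-regular tree: a set of edges such that every vertex lies in
exactly one of them. -/
def IsPM (M : Set (Sym2 W)) : Prop := M ⊆ T3.edgeSet ∧ ∀ v, ∃! e, e ∈ M ∧ v ∈ e

/-- `Φ` is a factor: a measurable map from labels to sets of edges which commutes with all
automorphisms of the tree. -/
structure IsFactor (Φ : Lab → Set (Sym2 W)) : Prop where
  /-- every event `e ∈ Φ ω` is Borel -/
  meas : ∀ e, MeasurableSet {ω | e ∈ Φ ω}
  /-- `Φ (γ ω) = γ (Φ ω)`, where `(γ ω) v = ω (γ⁻¹ v)` -/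
  equivar : ∀ (γ : T3 ≃g T3) (ω : Lab), Φ (fun v => ω (γ.symm v)) = Sym2.map γ '' Φ ω

/-- The labels in the ball of radius `r` about the root determine `Φ` on the edges at the root:
every `ω'` which agrees with `ω` on the ball gives the same edges at the root. -/
def Determines (Φ : Lab → Set (Sym2 W)) (r : ℕ) (ω : Lab) : Prop :=
  ∀ ω' : Lab, (∀ u, T3.dist e0 u ≤ r → ω' u = ω u) →
    ∀ e ∈ T3.edgeSet, e0 ∈ e → (e ∈ Φ ω' ↔ e ∈ Φ ω)

/-- The coding radius at the root (`∞` if no ball is sufficient). -/
def codingRadius (Φ : Lab → Set (Sym2 W)) (ω : Lab) : ℕ∞ :=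
  ⨅ (r : ℕ) (_ : Determines Φ r ω), (r : ℕ∞)

/-- The number of vertices in the ball of radius `r` about the root. -/
def ballCard (r : ℕ∞) : ℝ≥0∞ := ({u : W | (T3.dist e0 u : ℕ∞) ≤ r}.encard : ℝ≥0∞)

end Pool.Agent.V11331.PM

end
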