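import Pool.Agent.V11331.PM.Defs

set_option autoImplicit false

open MeasureTheory ProbabilityTheory Set Filter
open scoped ENNReal

noncomputable section

namespace Pool.Agent.V11331.PM

open Pool.Agent.H751R3

/-- the uniform law on `[0, 1]` -/
abbrev lm : Measure unitInterval := volume

theorem P_pi (s : Finset W) (t : W → Set unitInterval) (ht : ∀ i, MeasurableSet (t i)) :
    P (Set.pi s t) = ∏ i ∈ s, lm (t i) := Measure.infinitePi_pi _ fun i _ => ht i

theorem P_perm (g : W ≃ W) : P.map (fun ω v => ω (g v)) = P := by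
  unfold P
  refine Measure.eq_infinitePi _ fun s t ht => ?_
  have hm : Measurable fun (ω : Lab) (v : W) => ω (g v) :=
    measurable_pi_lambda _ fun v => measurable_pi_apply _
  rw [Measure.map_apply hm (MeasurableSet.pi s.countable_toSet fun i _ => ht i)]
  have h1 : (fun (ω : Lab) (v : W) => ω (g v)) ⁻¹' (Set.pi s t) =
      Set.pi (s.map g.toEmbedding) fun v => t (g.symm v) := by
    ext ω
    simp only [mem_preimage, Set.mem_pi, Finset.mem_coe, Finset.mem_map_equiv]
    constructor
    · intro h v hv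
      have := h _ hv
      rwa [g.apply_symm_apply] at this
    · intro h v hv
      have := h (g v) (by rwa [g.symm_apply_apply])
      rwa [g.symm_apply_apply] at this
  rw [h1]
  have h2 := P_pi (s.map g.toEmbedding) (fun v => t (g.symm v)) fun i => ht _
  unfold P at h2
  rw [h2, Finset.prod_map]
  refine Finset.prod_congr rfl fun i _ => ?_
  simp

theorem upd_meas (u : W) : Measurable fun p : Lab × unitInterval => Function.update p.1 u p.2 := by
  refine measurable_pi_lambda _ fun v => ?_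
  by_cases h : v = u
  · subst h
    simp only [Function.update_self]
    exact measurable_snd
  · simp only [Function.update_of_ne h]
    exact (measurable_pi_apply v).comp measurable_fst

theorem S_mp (u : W) : (P.prod lm).map (fun p => Function.update p.1 u p.2) = P := by
  conv_rhs => unfold P
  refine Measure.eq_infinitePi _ fun s t ht => ?_
  rw [Measure.map_apply (upd_meas u) (MeasurableSet.pi s.countable_toSet fun i _ => ht i)]
  by_cases hu : u ∈ s
  · have h1 : (fun p : Lab × unitInterval => Function.update p.1 u p.2) ⁻¹' (Set.pi s t) =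
        (Set.pi (s.erase u) t) ×ˢ (t u) := by
      ext ⟨ω, x⟩
      simp only [mem_preimage, Set.mem_pi, Finset.mem_coe, mem_prod, Finset.mem_erase]
      constructor
      · intro h
        refine ⟨fun i hi => ?_, ?_⟩
        · have := h i hi.2
          rwa [Function.update_of_ne hi.1] at this
        · have := h u hu
          rwa [Function.update_self] at this
      · rintro ⟨h2, h3⟩ i hi
        by_cases hiu : i = u
        · subst hiu
          rwa [Function.update_self]
        · rw [Function.update_of_ne hiu]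
          exact h2 i ⟨hiu, hi⟩
    rw [h1, Measure.prod_prod, P_pi _ _ ht, mul_comm]
    exact Finset.mul_prod_erase s (fun i => lm (t i)) hu
  · have h1 : (fun p : Lab × unitInterval => Function.update p.1 u p.2) ⁻¹' (Set.pi s t) =
        (Set.pi s t) ×ˢ univ := by
      ext ⟨ω, x⟩
      simp only [mem_preimage, Set.mem_pi, Finset.mem_coe, mem_prod, mem_univ, and_true]
      refine forall₂_congr fun i hi => ?_
      rw [Function.update_of_ne]
      rintro rfl
      exact hu hi
    rw [h1, Measure.prod_prod, P_pi _ _ ht, measure_univ, mul_one]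

theorem zero_one {A : Set Lab} (hA : MeasurableSet A)
    (h : ∀ u, ∀ᵐ p ∂(P.prod lm), (Function.update p.1 u p.2 ∈ A ↔ p.1 ∈ A)) :
    P A = 0 ∨ P A = 1 := by
  have hpi : ∀ (s : Finset W) (t : W → Set unitInterval), (∀ i, MeasurableSet (t i)) →
      MeasurableSet (Set.pi (s : Set W) t) := fun s t ht =>
    MeasurableSet.pi s.countable_toSet fun i _ => ht i
  have key : ∀ (s : Finset W) (t : W → Set unitInterval), (∀ i, MeasurableSet (t i)) →
      P (A ∩ Set.pi s t) = P A * ∏ i ∈ s, lm (t i) := by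
    intro s
    induction s using Finset.induction_on with
    | empty =>
      intro t _
      simp
    | insert u s hu ih =>
      intro t ht
      have hB : MeasurableSet (A ∩ Set.pi ((insert u s : Finset W) : Set W) t) :=
        hA.inter (hpi _ t ht)
      conv_lhs => rw [← S_mp u]
      rw [Measure.map_apply (upd_meas u) hB]
      have h1 : (fun p : Lab × unitInterval => Function.update p.1 u p.2) ⁻¹'
          (A ∩ Set.pi ((insert u s : Finset W) : Set W) t) =ᵐ[P.prod lm]
          ((A ∩ Set.pi s t) ×ˢ t u : Set (Lab × unitInterval)) := by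
        filter_upwards [h u] with p hp
        apply propext
        change (Function.update p.1 u p.2 ∈ A ∧
          Function.update p.1 u p.2 ∈ Set.pi ((insert u s : Finset W) : Set W) t) ↔
          ((p.1 ∈ A ∧ p.1 ∈ Set.pi s t) ∧ p.2 ∈ t u)
        rw [hp]
        simp only [Set.mem_pi, Finset.mem_coe, Finset.mem_insert]
        constructor
        · rintro ⟨h2, h3⟩
          refine ⟨⟨h2, fun i hi => ?_⟩, ?_⟩
          · have := h3 i (Or.inr hi)
            rwa [Function.update_of_ne] at this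
            rintro rfl
            exact hu hi
          · have := h3 u (Or.inl rfl)
            rwa [Function.update_self] at this
        · rintro ⟨⟨h2, h3⟩, h4⟩
          refine ⟨h2, ?_⟩
          rintro i (rfl | hi)
          · rwa [Function.update_self]
          · rw [Function.update_of_ne]
            · exact h3 i hi
            · rintro rfl
              exact hu hi
      rw [measure_congr h1, Measure.prod_prod, ih t ht, Finset.prod_insert hu]
      ring
  by_cases h0 : P A = 0
  · exact Or.inl h0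
  · right
    have h1 : (P A)⁻¹ • P.restrict A = P := by
      conv_rhs => unfold P
      refine Measure.eq_infinitePi _ fun s t ht => ?_
      rw [Measure.smul_apply, Measure.restrict_apply (hpi s t ht), inter_comm, key s t ht,
        smul_eq_mul, ← mul_assoc, ENNReal.inv_mul_cancel h0 (measure_ne_top _ _), one_mul]
    have h2 := congrArg (fun ν : Measure Lab => ν A) h1
    simp only [Measure.smul_apply, Measure.restrict_apply hA, inter_self, smul_eq_mul] at h2
    rw [ENNReal.inv_mul_cancel h0 (measure_ne_top _ _)] at h2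
    exact h2.symm

/-- translations as automorphisms -/
theorem exists_trans (w : W) : ∃ γ : T3 ≃g T3, ∀ u, γ u = tr w u := by
  obtain ⟨e, he⟩ := exists_equiv w
  refine ⟨⟨e, ?_⟩, he⟩
  intro a b
  rw [he, he, T3_adj, T3_adj]
  constructor
  · rintro ⟨c, hc⟩
    refine ⟨c, ?_⟩
    apply e.injective
    rw [he, he, hc, tr_act]
  · rintro ⟨c, rfl⟩
    exact ⟨c, tr_act _ _ _⟩

theorem tr_inj (w : W) : Function.Injective (tr w) := by
  obtain ⟨e, he⟩ := exists_equiv w
  have : tr w = e := by
    funext u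
    exact (he u).symm
  rw [this]
  exact e.injective

theorem tr_comm {w v : W} (h : tr w v = e0) : tr v w = e0 := by
  obtain ⟨v', hv'⟩ := exists_tr v
  have h1 := tr_tr h v'
  rw [hv', tr_e0] at h1
  rw [h1]
  exact hv'

/-- inverses -/
theorem exists_inv : ∃ e : W ≃ W, ∀ w, tr w (e w) = e0 := by
  choose iv hiv using exists_tr
  have h1 : ∀ w, iv (iv w) = w := by
    intro w
    apply tr_inj (iv w)
    rw [hiv, tr_comm (hiv w)]
  exact ⟨⟨iv, iv, h1, h1⟩, hiv⟩

/-- permutations of the letters as automorphisms -/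
theorem exists_pm (σ : Equiv.Perm (Fin 3)) :
    ∃ γ : T3 ≃g T3, γ e0 = e0 ∧ ∀ c, γ (act c e0) = act (σ c) e0 := by
  have hch : ∀ (τ : Equiv.Perm (Fin 3)) (w : W), (w.1.map τ).IsChain (· ≠ ·) := by
    intro τ w
    rw [List.isChain_map]
    exact w.2.imp fun a b h h2 => h (τ.injective h2)
  let f : Equiv.Perm (Fin 3) → W → W := fun τ w => ⟨w.1.map τ, hch τ w⟩
  have hf : ∀ τ c w, f τ (act c w) = act (τ c) (f τ w) := by
    intro τ c w
    apply Subtype.ext
    change (actL c w.1).map τ = actL (τ c) (w.1.map τ)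
    cases w.1 with
    | nil => rfl
    | cons d l =>
      by_cases h : c = d
      · subst h
        simp [actL]
      · have h2 : τ c ≠ τ d := fun h3 => h (τ.injective h3)
        simp [actL, h, h2]
  have hinv : ∀ τ w, f τ⁻¹ (f τ w) = w := by
    intro τ w
    apply Subtype.ext
    change (w.1.map τ).map (τ⁻¹ : Equiv.Perm (Fin 3)) = w.1
    rw [List.map_map]
    have : (⇑τ⁻¹ ∘ ⇑τ) = id := by
      funext x
      simp
    rw [this, List.map_id]
  let e : W ≃ W := ⟨f σ, f σ⁻¹, hinv σ, fun w => by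
    have := hinv σ⁻¹ w
    rwa [inv_inv] at this⟩
  refine ⟨⟨e, ?_⟩, ?_, ?_⟩
  · intro a b
    change T3.Adj (f σ a) (f σ b) ↔ T3.Adj a b
    rw [T3_adj, T3_adj]
    constructor
    · rintro ⟨c, hc⟩
      refine ⟨σ⁻¹ c, ?_⟩
      apply e.injective
      change f σ b = f σ (act (σ⁻¹ c) a)
      rw [hf, hc]
      simp
    · rintro ⟨c, rfl⟩
      exact ⟨σ c, hf _ _ _⟩
  · apply Subtype.ext
    rfl
  · intro c
    exact hf σ c e0

/-- a set of vertices in which every vertex has two neighbours is not finite and nonempty -/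
theorem no_finite {D : Set W} (hD : D.Finite)
    (h : ∀ v ∈ D, ∃ c d : Fin 3, c ≠ d ∧ act c v ∈ D ∧ act d v ∈ D) : D = ∅ := by
  by_contra hne
  obtain ⟨v, hv, hmax⟩ := Set.exists_max_image D len hD (nonempty_iff_ne_empty.2 hne)
  obtain ⟨c, d, hcd, hc, hd⟩ := h v hv
  have h1 := hmax _ hc
  have h2 := hmax _ hd
  rcases len_act c v with ⟨a0, a1, -⟩ | ⟨a0, a1, -⟩
  · rcases len_act d v with ⟨b0, b1, -⟩ | ⟨b0, b1, -⟩
    · exact hcd (Option.some.inj (a0.symm.trans b0))
    · omega
  · omega

/-- the status of the edges at `v` differs -/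
def Df (M M' : Set (Sym2 W)) (v : W) : Prop :=
  ∃ c : Fin 3, ¬ (s(v, act c v) ∈ M ↔ s(v, act c v) ∈ M')

theorem Df_symm {M M' : Set (Sym2 W)} {v : W} (h : Df M M' v) : Df M' M v := by
  obtain ⟨c, hc⟩ := h
  exact ⟨c, fun h2 => hc h2.symm⟩

theorem edge_form {M : Set (Sym2 W)} (hM : IsPM M) (v : W) :
    ∃ c : Fin 3, s(v, act c v) ∈ M ∧ ∀ d, s(v, act d v) ∈ M → d = c := by
  obtain ⟨e, ⟨he, hve⟩, huniq⟩ := hM.2 v
  have h1 := hM.1 he
  obtain ⟨w, rfl⟩ := Sym2.mem_iff_exists.1 hve
  rw [SimpleGraph.mem_edgeSet, T3_adj] at h1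
  obtain ⟨c, rfl⟩ := h1
  refine ⟨c, he, fun d hd => ?_⟩
  have h2 := huniq _ ⟨hd, Sym2.mem_mk_left _ _⟩
  have h3 : act d v = act c v := by
    rcases Sym2.eq_iff.1 h2 with ⟨_, h⟩ | ⟨h, h'⟩
    · exact h
    · exact absurd h.symm (act_ne c v)
  exact act_inj_left h3

theorem two_nbrs {M M' : Set (Sym2 W)} (hM : IsPM M) (hM' : IsPM M') {v : W} (hv : Df M M' v) :
    ∃ c d : Fin 3, c ≠ d ∧ Df M M' (act c v) ∧ Df M M' (act d v) := by
  obtain ⟨c, hc, hcu⟩ := edge_form hM v
  obtain ⟨d, hd, hdu⟩ := edge_form hM' v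
  have hcd : c ≠ d := by
    rintro rfl
    obtain ⟨b, hb⟩ := hv
    apply hb
    constructor
    · intro h
      rw [hcu b h]
      exact hd
    · intro h
      rw [hdu b h]
      exact hc
  refine ⟨c, d, hcd, ⟨c, ?_⟩, ⟨d, ?_⟩⟩
  · rw [act_act, Sym2.eq_swap]
    intro h
    exact hcd (hdu c (h.1 hc))
  · rw [act_act, Sym2.eq_swap]
    intro h
    exact hcd (hcu d (h.2 hd)).symm

theorem Df_empty {M M' : Set (Sym2 W)} (hM : IsPM M) (hM' : IsPM M')
    (hf : {v | Df M M' v}.Finite) : ∀ v, ¬ Df M M' v := by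
  have h := no_finite hf fun v hv => two_nbrs hM hM' hv
  intro v hv
  have : v ∈ {v | Df M M' v} := hv
  rw [h] at this
  exact this

variable {Φ : Lab → Set (Sym2 W)}

/-- the event that the status at `v` changes when the label at `u` is changed -/
def Ev (Φ : Lab → Set (Sym2 W)) (v u : W) : Set (Lab × unitInterval) :=
  {p | Df (Φ p.1) (Φ (Function.update p.1 u p.2)) v}

theorem Ev_meas (hΦ : IsFactor Φ) (v u : W) : MeasurableSet (Ev Φ v u) := by
  have h : Ev Φ v u = ⋃ c : Fin 3, ({p : Lab × unitInterval | s(v, act c v) ∈ Φ p.1} \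
      {p | s(v, act c v) ∈ Φ (Function.update p.1 u p.2)}) ∪
      ({p : Lab × unitInterval | s(v, act c v) ∈ Φ (Function.update p.1 u p.2)} \
      {p | s(v, act c v) ∈ Φ p.1}) := by
    ext p
    simp only [Ev, Df, Set.mem_iUnion, Set.mem_union, Set.mem_sdiff, Set.mem_ofPred_eq]
    refine exists_congr fun c => ?_
    tauto
  rw [h]
  refine MeasurableSet.iUnion fun c => ?_
  have h1 : MeasurableSet {p : Lab × unitInterval | s(v, act c v) ∈ Φ p.1} :=
    measurable_fst (hΦ.meas _)
  have h2 : MeasurableSet {p : Lab × unitInterval |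
      s(v, act c v) ∈ Φ (Function.update p.1 u p.2)} := upd_meas u (hΦ.meas _)
  exact (h1.diff h2).union (h2.diff h1)

theorem mem_equivar (hΦ : IsFactor Φ) (γ : T3 ≃g T3) (ω : Lab) (a b : W) :
    s(γ a, γ b) ∈ Φ (fun v => ω (γ.symm v)) ↔ s(a, b) ∈ Φ ω := by
  rw [hΦ.equivar, ← Sym2.map_mk, (Sym2.map.injective γ.injective).mem_set_image]

theorem Ev_inv (hΦ : IsFactor Φ) (w v u : W) :
    P.prod lm (Ev Φ (tr w v) (tr w u)) = P.prod lm (Ev Φ v u) := by
  obtain ⟨γ, hγ⟩ := exists_trans w
  have hm : Measurable fun (ω : Lab) (x : W) => ω (γ.symm x) :=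
    measurable_pi_lambda _ fun v => measurable_pi_apply _
  have hmp : MeasurePreserving (fun (ω : Lab) (x : W) => ω (γ.symm x)) P P :=
    ⟨hm, P_perm γ.symm.toEquiv⟩
  have h2 := hmp.prod (MeasurePreserving.id lm)
  rw [← h2.measure_preimage (Ev_meas hΦ _ _).nullMeasurableSet]
  congr 1
  ext ⟨ω, x⟩
  simp only [Ev, Df, Set.mem_preimage, Prod.map, Set.mem_ofPred_eq, id]
  refine exists_congr fun c => ?_
  have h3 : Function.update (fun x => ω (γ.symm x)) (tr w u) x =
      fun y => (Function.update ω u x) (γ.symm y) := by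
    funext y
    by_cases hy : y = tr w u
    · subst hy
      rw [Function.update_self, ← hγ, γ.symm_apply_apply, Function.update_self]
    · rw [Function.update_of_ne hy, Function.update_of_ne]
      intro h
      apply hy
      rw [← hγ, ← h, γ.apply_symm_apply]
  rw [h3, ← tr_act, ← hγ, ← hγ, mem_equivar hΦ, mem_equivar hΦ]

theorem Ev_le (ω : Lab) (w : W) :
    lm (Prod.mk ω ⁻¹' Ev Φ e0 w) ≤
      {u : W | (T3.dist e0 u : ℕ∞) ≤ codingRadius Φ ω}.indicator (fun _ => (1 : ℝ≥0∞)) w := by
  by_cases h : (T3.dist e0 w : ℕ∞) ≤ codingRadius Φ ω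
  · rw [indicator_of_mem (by exact h)]
    exact prob_le_one
  · rw [indicator_of_notMem (by exact h)]
    rw [not_le] at h
    unfold codingRadius at h
    rw [iInf_lt_iff] at h
    obtain ⟨r, h⟩ := h
    rw [iInf_lt_iff] at h
    obtain ⟨hr, h⟩ := h
    have h' : r < T3.dist e0 w := by exact_mod_cast h
    have : Prod.mk ω ⁻¹' Ev Φ e0 w = ∅ := by
      rw [eq_empty_iff_forall_notMem]
      rintro x ⟨c, hc⟩
      apply hc
      have h2 := hr (Function.update ω w x) (fun u hu => Function.update_of_ne (by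
        rintro rfl
        omega) _ _) s(e0, act c e0) (by
          rw [SimpleGraph.mem_edgeSet]
          exact ⟨c, rfl⟩) (Sym2.mem_mk_left _ _)
      exact h2.symm
    rw [this, measure_empty]

theorem sum_root (hΦ : IsFactor Φ) :
    ∑' w, P.prod lm (Ev Φ e0 w) ≤ ∫⁻ ω, ballCard (codingRadius Φ ω) ∂P := by
  have h1 : ∀ w, P.prod lm (Ev Φ e0 w) = ∫⁻ ω, lm (Prod.mk ω ⁻¹' Ev Φ e0 w) ∂P := fun w =>
    Measure.prod_apply (Ev_meas hΦ _ _)
  simp only [h1]
  rw [← lintegral_tsum fun w => (measurable_measure_prodMk_left (Ev_meas hΦ _ _)).aemeasurable]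
  refine lintegral_mono fun ω => ?_
  refine (ENNReal.tsum_le_tsum fun w => Ev_le ω w).trans (le_of_eq ?_)
  unfold ballCard
  rw [← ENNReal.tsum_set_one]
  exact (tsum_subtype {u : W | (T3.dist e0 u : ℕ∞) ≤ codingRadius Φ ω}
    (fun _ => (1 : ℝ≥0∞))).symm

theorem sum_root' (hΦ : IsFactor Φ) :
    ∑' v, P.prod lm (Ev Φ v e0) = ∑' v, P.prod lm (Ev Φ e0 v) := by
  obtain ⟨e, he⟩ := exists_inv
  have h1 : ∀ v, P.prod lm (Ev Φ v e0) = P.prod lm (Ev Φ e0 (e v)) := by
    intro v
    have := Ev_inv hΦ v e0 (e v)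
    rw [he, tr_e0] at this
    exact this
  simp only [h1]
  exact e.tsum_eq fun v => P.prod lm (Ev Φ e0 v)

theorem Ev_null (hΦ : IsFactor Φ) (hpm : ∀ᵐ ω ∂P, IsPM (Φ ω))
    (hfin : ∫⁻ ω, ballCard (codingRadius Φ ω) ∂P < ∞) (v u : W) :
    P.prod lm (Ev Φ v u) = 0 := by
  have h0 : ∀ v, P.prod lm (Ev Φ v e0) = 0 := by
    have h1 : ∑' v, P.prod lm (Ev Φ v e0) ≠ ∞ := by
      rw [sum_root' hΦ]
      exact ((sum_root hΦ).trans_lt hfin).ne
    have h2 := ae_finite_setOfPred_mem h1
    have h3 : ∀ᵐ p ∂(P.prod lm), IsPM (Φ p.1) := by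
      have hq : Measure.QuasiMeasurePreserving (Prod.fst : Lab × unitInterval → Lab)
          (P.prod lm) P := Measure.quasiMeasurePreserving_fst
      exact hq.ae hpm
    have h4 : ∀ᵐ p ∂(P.prod lm), IsPM (Φ (Function.update p.1 e0 p.2)) := by
      have hmp : MeasurePreserving
          (fun p : Lab × unitInterval => Function.update p.1 e0 p.2) (P.prod lm) P :=
        ⟨upd_meas e0, S_mp e0⟩
      exact hmp.quasiMeasurePreserving.ae hpm
    intro v
    have h5 : ∀ᵐ p ∂(P.prod lm), p ∉ Ev Φ v e0 := by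
      filter_upwards [h2, h3, h4] with p hp2 hp3 hp4
      exact Df_empty hp3 hp4 hp2 v
    exact measure_eq_zero_iff_ae_notMem.2 h5
  obtain ⟨γ, hγ⟩ := exists_trans u
  have h1 := Ev_inv hΦ u (γ.symm v) e0
  rw [tr_e0, ← hγ, γ.apply_symm_apply, h0] at h1
  exact h1

/-- there is no factor of i.i.d. with finite expected coding volume which is a perfect matching -/
theorem no_factor : ¬ ∃ Φ : Lab → Set (Sym2 W), IsFactor Φ ∧ (∀ᵐ ω ∂P, IsPM (Φ ω)) ∧
    ∫⁻ ω, ballCard (codingRadius Φ ω) ∂P < ∞ := by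
  rintro ⟨Φ, hΦ, hpm, hfin⟩
  set A : Fin 3 → Set Lab := fun c => {ω | s(e0, act c e0) ∈ Φ ω} with hA
  have hAm : ∀ c, MeasurableSet (A c) := fun c => hΦ.meas _
  have h01 : ∀ c, P (A c) = 0 ∨ P (A c) = 1 := by
    intro c
    refine zero_one (hAm c) fun u => ?_
    have h1 : ∀ᵐ p ∂(P.prod lm), p ∉ Ev Φ e0 u :=
      measure_eq_zero_iff_ae_notMem.1 (Ev_null hΦ hpm hfin e0 u)
    filter_upwards [h1] with p hp
    by_contra h2
    exact hp ⟨c, fun h3 => h2 h3.symm⟩
  have hsym : ∀ c d, P (A c) = P (A d) := by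
    intro c d
    obtain ⟨γ, hγ0, hγ⟩ := exists_pm (Equiv.swap c d)
    have hm : Measurable fun (ω : Lab) (x : W) => ω (γ.symm x) :=
      measurable_pi_lambda _ fun v => measurable_pi_apply _
    have hmp : MeasurePreserving (fun (ω : Lab) (x : W) => ω (γ.symm x)) P P :=
      ⟨hm, P_perm γ.symm.toEquiv⟩
    rw [← hmp.measure_preimage (hAm d).nullMeasurableSet]
    congr 1
    ext ω
    simp only [hA, Set.mem_preimage, Set.mem_ofPred_eq]
    have h1 := mem_equivar hΦ γ ω e0 (act c e0)
    rw [hγ0, hγ, Equiv.swap_apply_left] at h1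
    exact h1.symm
  rcases h01 0 with h | h
  · have h1 : ∀ c, ∀ᵐ ω ∂P, ω ∉ A c := by
      intro c
      refine measure_eq_zero_iff_ae_notMem.1 ?_
      rw [hsym c 0, h]
    obtain ⟨ω, h2, h3⟩ := (hpm.and (ae_all_iff.2 h1)).exists
    obtain ⟨c, hc, -⟩ := edge_form h2 e0
    exact h3 c hc
  · have h1 : ∀ c, ∀ᵐ ω ∂P, ω ∈ A c := by
      intro c
      have : P (A c) = 1 := by rw [hsym c 0, h]
      exact (prob_compl_eq_zero_iff (hAm c)).2 this
    obtain ⟨ω, h2, h3⟩ := (hpm.and (ae_all_iff.2 h1)).exists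
    obtain ⟨c, -, hcu⟩ := edge_form h2 e0
    have e1 := hcu 0 (h3 0)
    have e2 := hcu 1 (h3 1)
    have : (0 : Fin 3) = 1 := e1.trans e2.symm
    exact absurd this (by decide)

end Pool.Agent.V11331.PM

end
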